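import Pool.Agent.H67.FG.Wld

/-!
# FG: the evaluation process (definitions)
-/

set_option autoImplicit false

namespace Pool.Agent.H67.FG

open Finset Pool.Agent.H3.Ac

variable {V : Type} [Fintype V] [DecidableEq V]

open scoped Classical in
/-- the value which is decided at `π`: true if no witness of falsity (at most `w` edges) is compatible with `π`,
false if no witness of truth is -/
noncomputable def dec (w : ℕ) (f : Finset (Sym2 V) → Option Bool) (π : Finset (Sym2 V)) : Option Bool :=
  if ∀ t, IsM t → t.card ≤ w → f t = some false → ¬ Cmp t π then some true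
  else if ∀ t, IsM t → t.card ≤ w → f t = some true → ¬ Cmp t π then some false
  else none

open scoped Classical in
/-- a compatible witness of truth -/
noncomputable def wtn (w : ℕ) (f : Finset (Sym2 V) → Option Bool) (π : Finset (Sym2 V)) : Finset (Sym2 V) :=
  if h : ∃ t, IsM t ∧ t.card ≤ w ∧ f t = some true ∧ Cmp t π then h.choose else ∅

open scoped Classical in
/-- the process: as long as the value is not decided, ask for the partners of all points of a compatible witness of
truth; it is stuck (`none`) if one of them has no partner in `M` -/
noncomputable def run (w : ℕ) (f : Finset (Sym2 V) → Option Bool) (M : Finset (Sym2 V)) :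
    ℕ → Finset (Sym2 V) → Option Bool
  | 0, π => dec w f π
  | n + 1, π => if (dec w f π).isSome then dec w f π
      else if cov (wtn w f π) ⊆ cov M then run w f M n (π ∪ tch (cov (wtn w f π)) M) else none

/-- disjunction in `Fm` -/
def orF {W : Type} : List (Pool.Agent.H3.Frg.Fm W) → Pool.Agent.H3.Frg.Fm W → Pool.Agent.H3.Frg.Fm W
  | [], A => A
  | B :: l, A => .imp (.neg B) (orF l A)

/-- the sizes of the point sets in the tower -/
def lev (w L : ℕ) : ℕ → ℕ
  | 0 => L
  | i + 1 => 16 * w * (lev w L i) ^ 4 + lev w L i

end Pool.Agent.H67.FG
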