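import Pool.Agent.H67.FG.Run

/-!
# FG: outermost gates, levels, and the interface of DEG
-/

set_option autoImplicit false

namespace Pool.Agent.H67.FG

open Pool.Agent.H3.Frg

variable {V : Type}

/-- the outermost MOD gates of a formula -/
def Fo.outer : Fo V → Set (Fo V)
  | .var _ => ∅
  | .neg A => A.outer
  | .imp A B => A.outer ∪ B.outer
  | .mod a n f => {.mod a n f}

/-- `Few t l A` for `l = 0`: no MOD gates; for `l + 1`: there is a set `Γ` of at most `t` MOD gates which contains the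
outermost gates of `A` such that for each input `B` of each gate in `Γ`: the outermost gates of `B` are in `Γ`, or
`Few t l B`. So `Few t 1 A` holds if `A` has at most `t` different MOD gates, nested in any way; and `Few t l A` holds
if the MOD gates of `A` are nested at most `l` times, each input of a gate with at most `t` outermost gates. -/
def Few (t : ℕ) : ℕ → Fo V → Prop
  | 0, A => A.outer = ∅
  | l + 1, A => ∃ Γ : Set (Fo V), Γ.Finite ∧ Γ.ncard ≤ t ∧ A.outer ⊆ Γ ∧
      ∀ (a n : ℕ) (f : Fin n → Fo V), Fo.mod a n f ∈ Γ → ∀ i, (f i).outer ⊆ Γ ∨ Few t l (f i)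

/-- the values of the subformulas of `A` have degree at most `T * D0` -/
def DegOK (F : Type) [Field F] (m T : ℕ) (A : Fo V) : Prop :=
  ∀ (Y : Type) (𝓐 : Alg F Y) (r : Y → Fm (V ⊕ Bool) → Option Bool) (g : Y → Fo V → Bool),
    (∀ y a n f, g y (.mod a n f) =
      decide ((Finset.univ.filter fun i => g y (f i) = true).card % m = a % m)) →
    (∀ y A, g y A = (r y (tr (g y) A)).getD false) → ∀ D0 : ℕ,
    (∀ (G : Fo V → Bool), ∀ B ∈ A.subs, ∀ b, ind (fun y => r y (tr G B) = b) ∈ 𝓐.Deg D0) →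
    (∀ (G : Fo V → Bool), ∀ B ∈ A.subs, ind (fun y => r y (tr G B) = none) ∈ 𝓐.Z) →
    T * D0 ≤ 𝓐.K → ∀ B ∈ A.subs,
      ind (fun y => g y B = true) ∈ 𝓐.Deg (T * D0) ∧
      ind (fun y => r y (tr (g y) B) = none) ∈ 𝓐.Deg (T * D0) ∧
      ind (fun y => r y (tr (g y) B) = none) ∈ 𝓐.Z

end Pool.Agent.H67.FG
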