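import Mathlib
import Pool.Agent.H3.Frg2.Defs

/-!
# Frege proofs with MOD gates: definitions

Formulas over `¬`, `→` and unbounded MOD gates, the left depth between MOD gates, subformulas, derivations, the
parity principle (`N` points, `N` odd, have no perfect matching).
-/

set_option autoImplicit false

namespace Pool.Agent.H67.FG

open Pool.Agent.H3.Frg Pool.Agent.H3.Frg2

/-- Formulas over the variables `V`. `mod a n f`: the number of the true formulas among `f 0, ..., f (n - 1)` is `a`
modulo `p`. -/
inductive Fo (V : Type) : Type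
  | var (v : V) : Fo V
  | neg (A : Fo V) : Fo V
  | imp (A B : Fo V) : Fo V
  | mod (a n : ℕ) (f : Fin n → Fo V) : Fo V

variable {V : Type}

/-- all subformulas (with repetitions), also those inside MOD gates -/
def Fo.subs : Fo V → List (Fo V)
  | .var v => [.var v]
  | .neg A => .neg A :: A.subs
  | .imp A B => .imp A B :: (A.subs ++ B.subs)
  | .mod a n f => .mod a n f :: (List.finRange n).flatMap fun i => (f i).subs

/-- left depth; a MOD gate counts as a variable (what is inside has a depth of its own) -/
def Fo.dep : Fo V → ℕ
  | .var _ => 0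
  | .neg A => A.dep + 1
  | .imp A B => max (A.dep + 1) B.dep
  | .mod _ _ _ => 0

/-- the formula is a MOD gate -/
def Fo.IsMod (A : Fo V) : Prop := ∃ a n f, A = .mod a n f

/-- the MOD gates in a formula -/
def Fo.gates (A : Fo V) : Set (Fo V) := {B | B ∈ A.subs ∧ B.IsMod}

/-- a truth assignment of the formulas respects the MOD gates -/
def Resp (p : ℕ) (v : Fo V → Bool) : Prop :=
  ∀ a n f, v (.mod a n f) = true ↔ (Finset.univ.filter fun i => v (f i) = true).card % p = a % p

/-- substitution of formulas for the letters of a scheme (a formula over `¬`, `→` in the letters `0, 1, 2, ...`) -/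
def inst (σ : ℕ → Fo V) : Fm ℕ → Fo V
  | .var i => σ i
  | .neg A => .neg (inst σ A)
  | .imp A B => .imp (inst σ A) (inst σ B)

/-- the disjunction of the members of the list and of `A`, written with `¬` and `→` -/
def orAll : List (Fo V) → Fo V → Fo V
  | [], A => A
  | B :: l, A => .imp (.neg B) (orAll l A)

/-- Refutations: each line is a hypothesis, or an instance of a scheme with at most `k` symbols which is true for
all truth values of the formulas that respect the MOD gates, or it follows from two earlier lines by modus ponens;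
the last line is `¬ (A → A)`. -/
structure IsRef (p k : ℕ) (Hyp : Set (Fo V)) (π : List (Fo V)) : Prop where
  /-- lines -/
  line : ∀ (i : ℕ) (hi : i < π.length), π[i] ∈ Hyp ∨
    (∃ (ψ : Fm ℕ) (σ : ℕ → Fo V), ψ.len ≤ k ∧ (∀ v : Fo V → Bool, Resp p v → ψ.eval (fun n => v (σ n)) = true) ∧
      π[i] = inst σ ψ) ∨
    ∃ (j l : ℕ) (hj : j < i) (hl : l < i), π[l] = .imp π[j] π[i]
  /-- the last line is a contradiction -/
  last : ∃ (h : π ≠ []) (A : Fo V), π.getLast h = .neg (.imp A A)

/-- the number of subformulas of all lines -/
def size (π : List (Fo V)) : ℕ := (π.map fun A => A.subs.length).sum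

/-- The hypotheses of the parity principle: each point `a` of `Fin N` is matched with some `b`, and not with two. -/
def Parity (N : ℕ) : Set (Fo (Sym2 (Fin N))) :=
  {A | (∃ a b c : Fin N, b ≠ c ∧ A = .imp (.var s(a, b)) (.neg (.var s(a, c)))) ∨
    ∃ (a : Fin N) (l : List (Fo (Sym2 (Fin N)))) (B : Fo (Sym2 (Fin N))), A = orAll l B ∧
      ∀ b, b ≠ a → .var s(a, b) ∈ B :: l}

/-- guess: the MOD gates are replaced by constants -/
def tr (g : Fo V → Bool) : Fo V → Fm (V ⊕ Bool)
  | .var v => .var (Sum.inl v)
  | .neg A => .neg (tr g A)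
  | .imp A B => .imp (tr g A) (tr g B)
  | .mod a n f => .var (Sum.inr (g (.mod a n f)))

end Pool.Agent.H67.FG
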