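import Mathlib
import Pool.Agent.H3.Ac.Stp
import Pool.Agent.H67.FG.Defs

/-!
# FG: the world (interface between the modules)

`Alg`: functions `Y → k` with a degree filtration and the space `Z` of the functions which are zero modulo the
contradiction (Tseitin on the complete graph). `MW`: in addition a matching `M y` of the points `V` for each `y`.
-/

set_option autoImplicit false

namespace Pool.Agent.H67.FG

open Finset Pool.Agent.H3.Ac

open scoped Classical in
/-- the indicator function of a predicate -/
noncomputable def ind {Y k : Type} [Field k] (P : Y → Prop) : Y → k := fun y => if P y then 1 else 0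

/-- degree filtration and zero space -/
structure Alg (k Y : Type) [Field k] where
  /-- functions of degree at most `n` -/
  Deg : ℕ → Submodule k (Y → k)
  /-- functions which are zero modulo the contradiction -/
  Z : Submodule k (Y → k)
  /-- the bound on the degrees -/
  K : ℕ
  /-- constants -/
  one : ∀ n, (1 : Y → k) ∈ Deg n
  /-- monotone -/
  mono : ∀ {a b : ℕ}, a ≤ b → Deg a ≤ Deg b
  /-- products -/
  mul : ∀ {a b : ℕ} {f g : Y → k}, f ∈ Deg a → g ∈ Deg b → f * g ∈ Deg (a + b)
  /-- `Z` is closed under multiplication in bounded degree -/
  zmul : ∀ {a b : ℕ} {f h : Y → k}, a + b ≤ K → f ∈ Deg a → h ∈ Deg b → h ∈ Z → f * h ∈ Z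
  /-- `1` is not in `Z` -/
  ne : (1 : Y → k) ∉ Z

/-- the edges of a matching at the points of `A` -/
noncomputable def tch {V : Type} [DecidableEq V] (A : Finset V) (M : Finset (Sym2 V)) : Finset (Sym2 V) :=
  open scoped Classical in M.filter fun e => ∃ v ∈ A, v ∈ e

/-- the matching world: `c` is the cost (in degree) of asking for the partner of one point -/
structure MW (k Y V : Type) [Field k] [Fintype V] [DecidableEq V] extends Alg k Y where
  /-- the matching -/
  M : Y → Finset (Sym2 V)
  /-- cost of a query -/
  c : ℕ
  /-- matching -/
  isM : ∀ y, IsM (M y)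
  /-- the edges at the points of `A` are a local function -/
  loc : ∀ (A : Finset V) (δ : Finset (Sym2 V)), ind (fun y => tch A (M y) = δ) ∈ Deg (A.card * c)
  /-- a point is uncovered only where there is a contradiction -/
  stk : ∀ A : Finset V, 2 * (A.card * c) + c ≤ K → ind (fun y => ¬ A ⊆ cov (M y)) ∈ Z

end Pool.Agent.H67.FG
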