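import Pool.Agent.H67.FG.Run
import Pool.Agent.H6.FG.Gue

/-!
# FG, module GUE: the consistent guess
-/

set_option autoImplicit false

namespace Pool.Agent.H67.FG

open Pool.Agent.H3.Frg

variable {V : Type}

/-- members of gates are subformulas -/
theorem mem_subs_of_mem_mod {A : Fo V} {a n : ℕ} {f : Fin n → Fo V} (h : Fo.mod a n f ∈ A.subs) (i : Fin n) :
    f i ∈ A.subs :=
  H6.FG.mem_subs_of_mem_mod h i

theorem self_mem_subs (A : Fo V) : A ∈ A.subs :=
  H6.FG.self_mem_subs A

theorem subs_trans {A B C : Fo V} (h1 : A ∈ B.subs) (h2 : B ∈ C.subs) : A ∈ C.subs :=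
  H6.FG.subs_trans h1 h2

theorem gates_mono {A B : Fo V} (h : A ∈ B.subs) : A.gates ⊆ B.gates :=
  H6.FG.gates_mono h

theorem gates_finite (A : Fo V) : A.gates.Finite :=
  H6.FG.gates_finite A

theorem tr_congr {g g' : Fo V → Bool} (A : Fo V) (h : ∀ B ∈ A.gates, g B = g' B) : tr g A = tr g' A :=
  H6.FG.tr_congr h

/-- the consistent guess -/
theorem guess_exists (p : ℕ) (r : Fm (V ⊕ Bool) → Option Bool) (hr : ∀ b, r (.var (Sum.inr b)) = some b) :
    ∃ g : Fo V → Bool, (∀ a n f, g (.mod a n f) = decide ((Finset.univ.filter fun i => g (f i) = true).card % p = a % p)) ∧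
      ∀ A, g A = (r (tr g A)).getD false :=
  H6.FG.guess_exists p r hr

/-- a guess which is consistent on the gates of `A` agrees with `g` there -/
theorem guess_unique (p : ℕ) (r : Fm (V ⊕ Bool) → Option Bool) {g : Fo V → Bool}
    (hg1 : ∀ a n f, g (.mod a n f) =
      decide ((Finset.univ.filter fun i => g (f i) = true).card % p = a % p)) (hg2 : ∀ A, g A = (r (tr g A)).getD false)
    (A : Fo V) (G : Fo V → Bool) :
    (∀ a n f, Fo.mod a n f ∈ A.gates →
      decide ((Finset.univ.filter fun i => (r (tr G (f i))).getD false = true).card % p = a % p) =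
        G (.mod a n f)) ↔
    ∀ B ∈ A.gates, G B = g B :=
  H6.FG.guess_unique p r hg1 hg2 A G

end Pool.Agent.H67.FG
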