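import Pool.Agent.H67.FG.Pro
import Pool.Agent.H27.FG.Com

/-!
# FG, module COH: decided values are the values at one common matching
-/

set_option autoImplicit false

namespace Pool.Agent.H67.FG

open Finset Pool.Agent.H3.Ac Pool.Agent.H3.Frg

variable {W V : Type} [Fintype V] [DecidableEq V]

/-- decided values of at most three formulas are the values at one matching -/
theorem common {w : ℕ} {val : Fm W → Finset (Sym2 V) → Option Bool} {S : Set (Fm W)}
    (hval : ∀ A ∈ S, Val w (8 * w) (val A)) (hL : 100 * (w + 1) ^ 2 ≤ Fintype.card V) (l : List (Fm W))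
    (hl : l.length ≤ 3) (hS : ∀ A ∈ l, A ∈ S) {M : Finset (Sym2 V)} (hM : IsM M) (b : Fm W → Bool)
    (h : ∀ A ∈ l, run w (val A) M (w + 1) ∅ = some (b A)) : ∃ N, IsM N ∧ ∀ A ∈ l, val A N = some (b A) :=
  H27.FG.common hval hL l hl hS hM b h

end Pool.Agent.H67.FG
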