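import Pool.Agent.H81.FG.NumL

/-!
# FG, module NUM: parameters
-/

set_option autoImplicit false

namespace Pool.Agent.H67.FG

/-- the first point set is polynomial in `m t` -/
theorem num2 (d k l : ℕ) : ∃ C : ℕ, ∀ m t q : ℕ, 2 ≤ m → 1 ≤ t →
    q = 1000 * (k + 3) * ((t * m) ^ l * (2 * t + 2) ^ 2) → lev (2 * t + 1) (q * (q - 1) + 1) d ≤ (m * t) ^ C :=
  H81.FG.num2 d k l

end Pool.Agent.H67.FG
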