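import Pool.Agent.H67.FG.Snd
import Pool.Agent.H67.FG.Num

/-!
# FG: the theorem
-/

set_option autoImplicit false

namespace Pool.Agent.H67.FG

/-- Few MOD gates: for all `d`, `k`, `l` there is `C` such that for all powers `p ^ e` of odd primes, all `t ≥ 1` and
all odd `N ≥ (p ^ e * t) ^ C`: every refutation of the parity principle with lines of left depth at most `d` between
MOD gates and with few MOD gates (`Few t l`) has at least `2 ^ t` different subformulas. -/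
theorem few_gates (d k l : ℕ) : ∃ C : ℕ, ∀ p e t N : ℕ, p.Prime → Odd p → 1 ≤ e → 1 ≤ t → Odd N →
    (p ^ e * t) ^ C ≤ N → ∀ π : List (Fo (Sym2 (Fin N))), IsRef (p ^ e) k (Parity N) π →
      (∀ A ∈ π, (∀ B ∈ A.subs, B.dep ≤ d) ∧ Few t l A) → 2 ^ t ≤ {B | ∃ A ∈ π, B ∈ A.subs}.ncard := by
  obtain ⟨C, hC⟩ := num2 (max d 1) (max k 1) l
  refine ⟨C, fun p e t N hp hp2 he ht hN hNC π hπ hline => ?_⟩
  have : Fact p.Prime := ⟨hp⟩
  have hpe : 2 ≤ p ^ e := by
    calc 2 ≤ p := hp.two_le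
      _ = p ^ 1 := (pow_one p).symm
      _ ≤ p ^ e := Nat.pow_le_pow_right hp.pos he
  have h2 : (2 : ZMod p) ≠ 0 := by
    intro h
    have h' : ((2 : ℕ) : ZMod p) = 0 := by exact_mod_cast h
    rw [ZMod.natCast_eq_zero_iff] at h'
    have := Nat.le_of_dvd (by norm_num) h'
    have h3 : p = 2 := by
      have := hp.two_le
      omega
    rw [h3] at hp2
    exact absurd hp2 (by decide)
  have hlev := hC (p ^ e) t _ hpe ht rfl
  have hπ' : IsRef (p ^ e) (max k 1) (Parity N) π := by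
    refine ⟨fun i hi => ?_, hπ.last⟩
    rcases hπ.line i hi with h | ⟨ψ, σ, h1, h2, h3⟩ | h
    · exact Or.inl h
    · exact Or.inr (Or.inl ⟨ψ, σ, h1.trans (le_max_left _ _), h2, h3⟩)
    · exact Or.inr (Or.inr h)
  have h := lower h2 (m := p ^ e) (T := (t * p ^ e) ^ l) (d := max d 1) (k := max k 1) (t := t) (w := 2 * t + 1)
    (q := 1000 * (max k 1 + 3) * ((t * p ^ e) ^ l * (2 * t + 2) ^ 2))
    (Nat.one_le_iff_ne_zero.2 (pow_ne_zero _ (by positivity))) (le_max_right _ _) (le_max_right _ _) (by omega)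
    (le_refl _) hN (hlev.trans hNC) π hπ'
    (fun A hA B hB => ⟨((hline A hA).1 B hB).trans (le_max_left _ _), H93.FG2.few_outer (hline A hA).2 B hB⟩)
    (fun A hA => H93.FG2.few_deg ht hpe (hline A hA).2)
  by_contra hcon
  push Not at hcon
  have h1 : 2 ^ (2 * t + 1) = 2 ^ t * 2 ^ t * 2 := by
    rw [pow_succ, two_mul, pow_add]
  have h2 : 2 ≤ 2 ^ t := by
    calc 2 = 2 ^ 1 := rfl
      _ ≤ 2 ^ t := Nat.pow_le_pow_right (by norm_num) ht
  have h3 : 2 ^ t * {B | ∃ A ∈ π, B ∈ A.subs}.ncard + 2 ^ t ≤ 2 ^ t * 2 ^ t := by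
    calc 2 ^ t * {B | ∃ A ∈ π, B ∈ A.subs}.ncard + 2 ^ t = 2 ^ t * ({B | ∃ A ∈ π, B ∈ A.subs}.ncard + 1) := by ring
      _ ≤ 2 ^ t * 2 ^ t := Nat.mul_le_mul_left _ hcon
  omega

end Pool.Agent.H67.FG
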