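import Pool.Agent.H67.FG.Snd

/-!
# FG: the theorem with explicit parameters
-/

set_option autoImplicit false

namespace Pool.Agent.H67.FG

theorem lev_le_pow {X w L : ℕ} (hX : 3 ≤ X) (hw1 : 1 ≤ w) (hw : w ≤ X) : ∀ i, X ^ 2 * lev w L i ≤ (X ^ 2 * L) ^ 4 ^ i
  | 0 => by simp [lev]
  | i + 1 => by
    have ih := lev_le_pow (L := L) hX hw1 hw i
    have h1 : lev w L i ≤ w * lev w L i ^ 4 := by
      calc lev w L i ≤ lev w L i ^ 4 := Nat.le_self_pow (by norm_num) _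
        _ = 1 * lev w L i ^ 4 := (one_mul _).symm
        _ ≤ w * lev w L i ^ 4 := Nat.mul_le_mul_right _ hw1
    have h2 : 17 ≤ X ^ 5 := by
      calc 17 ≤ 3 ^ 5 := by norm_num
        _ ≤ X ^ 5 := Nat.pow_le_pow_left hX 5
    calc X ^ 2 * lev w L (i + 1) = X ^ 2 * (16 * w * lev w L i ^ 4 + lev w L i) := rfl
      _ ≤ X ^ 2 * (16 * w * lev w L i ^ 4 + w * lev w L i ^ 4) := Nat.mul_le_mul_left _ (by omega)
      _ = X ^ 2 * (17 * w * lev w L i ^ 4) := by ring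
      _ ≤ X ^ 2 * (X ^ 5 * X * lev w L i ^ 4) :=
        Nat.mul_le_mul_left _ (Nat.mul_le_mul_right _ (Nat.mul_le_mul h2 hw))
      _ = (X ^ 2 * lev w L i) ^ 4 := by ring
      _ ≤ ((X ^ 2 * L) ^ 4 ^ i) ^ 4 := Nat.pow_le_pow_left ih 4
      _ = (X ^ 2 * L) ^ 4 ^ (i + 1) := by rw [← pow_mul, ← pow_succ]

theorem lev_num {d k l m t : ℕ} (hm : 3 ≤ m) (ht : 1 ≤ t) :
    lev (2 * t + 1) (1000 * (k + 3) * ((t * m) ^ l * (2 * t + 2) ^ 2) *
      (1000 * (k + 3) * ((t * m) ^ l * (2 * t + 2) ^ 2) - 1) + 1) d ≤ ((k + 3) * (m * t) ^ (l + 10)) ^ (2 * 4 ^ d) := by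
  set q := 1000 * (k + 3) * ((t * m) ^ l * (2 * t + 2) ^ 2) with hq
  set X := m * t with hX
  have hX3 : 3 * t ≤ X := Nat.mul_le_mul_right t hm
  have hX3' : 3 ≤ X := by omega
  have hq1 : 1 ≤ q := Nat.one_le_iff_ne_zero.2 (by rw [hq]; positivity)
  have hL : q * (q - 1) + 1 ≤ q ^ 2 := by
    obtain ⟨n, hn⟩ : ∃ n, q = n + 1 := ⟨q - 1, by omega⟩
    rw [hn]
    simp only [Nat.add_sub_cancel]
    nlinarith
  have h1 : 1000 * (2 * t + 2) ^ 2 ≤ X ^ 7 * X ^ 2 := by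
    have h2 : 9 * (1000 * (2 * t + 2) ^ 2) ≤ 9 * (2187 * X ^ 2) := by nlinarith
    have h3 : 2187 * X ^ 2 ≤ X ^ 7 * X ^ 2 := by
      apply Nat.mul_le_mul_right
      calc 2187 = 3 ^ 7 := by norm_num
        _ ≤ X ^ 7 := Nat.pow_le_pow_left hX3' 7
    omega
  have hXq : X * q ≤ (k + 3) * X ^ (l + 10) := by
    calc X * q = (k + 3) * X ^ (l + 1) * (1000 * (2 * t + 2) ^ 2) := by
          rw [hq, mul_comm t m, ← hX]; ring
      _ ≤ (k + 3) * X ^ (l + 1) * (X ^ 7 * X ^ 2) := Nat.mul_le_mul_left _ h1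
      _ = (k + 3) * X ^ (l + 10) := by ring
  calc lev (2 * t + 1) (q * (q - 1) + 1) d ≤ X ^ 2 * lev (2 * t + 1) (q * (q - 1) + 1) d :=
        Nat.le_mul_of_pos_left _ (by positivity)
    _ ≤ (X ^ 2 * (q * (q - 1) + 1)) ^ 4 ^ d := lev_le_pow hX3' (by omega) (by omega) d
    _ ≤ (X ^ 2 * q ^ 2) ^ 4 ^ d := Nat.pow_le_pow_left (Nat.mul_le_mul_left _ hL) _
    _ = (X * q) ^ (2 * 4 ^ d) := by rw [← mul_pow, ← pow_mul]
    _ ≤ ((k + 3) * X ^ (l + 10)) ^ (2 * 4 ^ d) := Nat.pow_le_pow_left hXq _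

/-- Few MOD gates, explicit form: if `N` is odd, `m = p ^ e` is a power of an odd prime and
`((k + 3) (m t) ^ (l + 10)) ^ (2 * 4 ^ d) ≤ N`, then every refutation of the parity principle on `N` points with rules of
at most `k` symbols, lines of left depth at most `d` between MOD gates and few MOD gates (`Few t l`) has at least
`2 ^ t` different subformulas. -/
theorem few_gates_explicit {d k l p e t N : ℕ} (hd : 1 ≤ d) (hk : 1 ≤ k) (hp : p.Prime) (hp2 : Odd p) (he : 1 ≤ e)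
    (ht : 1 ≤ t) (hN : Odd N) (hN2 : ((k + 3) * (p ^ e * t) ^ (l + 10)) ^ (2 * 4 ^ d) ≤ N)
    (π : List (Fo (Sym2 (Fin N)))) (hπ : IsRef (p ^ e) k (Parity N) π)
    (hline : ∀ A ∈ π, (∀ B ∈ A.subs, B.dep ≤ d) ∧ Few t l A) : 2 ^ t ≤ {B | ∃ A ∈ π, B ∈ A.subs}.ncard := by
  have : Fact p.Prime := ⟨hp⟩
  have hp3 : 3 ≤ p := by
    have h1 := hp.two_le
    rcases hp2 with ⟨m, hm⟩
    omega
  have hpe : 3 ≤ p ^ e := by
    calc 3 ≤ p := hp3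
      _ = p ^ 1 := (pow_one p).symm
      _ ≤ p ^ e := Nat.pow_le_pow_right hp.pos he
  have h2 : (2 : ZMod p) ≠ 0 := by
    intro h
    have h' : ((2 : ℕ) : ZMod p) = 0 := by exact_mod_cast h
    rw [ZMod.natCast_eq_zero_iff] at h'
    have := Nat.le_of_dvd (by norm_num) h'
    omega
  have h := lower h2 (m := p ^ e) (T := (t * p ^ e) ^ l) (d := d) (k := k) (t := t) (w := 2 * t + 1)
    (q := 1000 * (k + 3) * ((t * p ^ e) ^ l * (2 * t + 2) ^ 2))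
    (Nat.one_le_iff_ne_zero.2 (pow_ne_zero _ (by positivity))) hd hk (by omega)
    (le_refl _) hN ((lev_num hpe ht).trans hN2) π hπ
    (fun A hA B hB => ⟨(hline A hA).1 B hB, H93.FG2.few_outer (hline A hA).2 B hB⟩)
    (fun A hA => H93.FG2.few_deg ht (by omega) (hline A hA).2)
  by_contra hcon
  push Not at hcon
  have h1 : 2 ^ (2 * t + 1) = 2 ^ t * 2 ^ t * 2 := by
    rw [pow_succ, two_mul, pow_add]
  have h2 : 2 ≤ 2 ^ t := by
    calc 2 = 2 ^ 1 := rfl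
      _ ≤ 2 ^ t := Nat.pow_le_pow_right (by norm_num) ht
  have h3 : 2 ^ t * {B | ∃ A ∈ π, B ∈ A.subs}.ncard + 2 ^ t ≤ 2 ^ t * 2 ^ t := by
    calc 2 ^ t * {B | ∃ A ∈ π, B ∈ A.subs}.ncard + 2 ^ t = 2 ^ t * ({B | ∃ A ∈ π, B ∈ A.subs}.ncard + 1) := by ring
      _ ≤ 2 ^ t * 2 ^ t := Nat.mul_le_mul_left _ hcon
  omega

end Pool.Agent.H67.FG
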