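import Pool.Agent.H67.FG.Out
import Pool.Agent.H67.FG.Gue
import Pool.Agent.H93.FG.FewD

/-!
# FG, levels
-/

set_option autoImplicit false

namespace Pool.Agent.H67.FG

variable {V : Type}

theorem few_outer {t l : ℕ} {A : Fo V} (h : Few t l A) : ∀ B ∈ A.subs, B.outer.ncard ≤ t :=
  H93.FG2.few_outer h

theorem few_deg {p e t l : ℕ} [Fact p.Prime] {A : Fo V} (ht : 1 ≤ t) (hpe : 2 ≤ p ^ e) (h : Few t l A) :
    DegOK (ZMod p) (p ^ e) ((t * p ^ e) ^ l) A :=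
  H93.FG2.few_deg ht hpe h

end Pool.Agent.H67.FG
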