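import Pool.Agent.H67.FG.Wld
import Pool.Agent.H51.FG.Tse

/-!
# FG, module MAT + TSE: the world over the complete graph
-/

set_option autoImplicit false

namespace Pool.Agent.H67.FG

open Finset Pool.Agent.H3.Ac

/-- the points: pairs of different vertices and one more point -/
abbrev Pt (q : ℕ) : Type := {x : Fin q × Fin q // x.1 ≠ x.2} ⊕ Unit

/-- the variables: edges of the complete graph -/
abbrev Eq' (q : ℕ) : Type := {e : Sym2 (Fin q) // ¬ e.IsDiag}

theorem card_Pt (q : ℕ) : Fintype.card (Pt q) = q * (q - 1) + 1 :=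
  H87.FG.card_Pq q

/-- the world -/
theorem world_exists (k : Type) [Field k] (h2 : (2 : k) ≠ 0) (q K : ℕ) (hq : 3 < q) (hK : 9 * K < q ^ 2)
    (hqK : q - 1 ≤ K) : ∃ 𝓦 : MW k (Eq' q → Bool) (Pt q), 𝓦.c = q - 1 ∧ 𝓦.K = K :=
  H51.FG.world k h2 q K hq hK hqK

end Pool.Agent.H67.FG
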