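import Pool.Agent.H67.FG.SndB
import Pool.Agent.H67.FG.Out
import Pool.Agent.H93.FG.SubD

/-!
# FG, module SND: the end
-/

set_option autoImplicit false

namespace Pool.Agent.H67.FG

open Finset Pool.Agent.H3.Ac Pool.Agent.H3.Frg

theorem run_const {V : Type} [Fintype V] [DecidableEq V] (w n : ℕ) (f : Finset (Sym2 V) → Option Bool) (b : Bool)
    (hf : ∀ M, f M = some b) (M : Finset (Sym2 V)) : run w f M n ∅ = some b := by
  have h : dec w f ∅ = some b := by
    unfold dec
    cases b with
    | true =>
      rw [if_pos]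
      intro t _ _ h
      rw [hf t] at h
      cases h
    | false =>
      rw [if_neg, if_pos]
      · intro t _ _ h
        rw [hf t] at h
        cases h
      · intro h
        apply h ∅ (isM_empty) (by simp) (hf _)
        unfold Cmp
        simpa using (isM_empty : IsM (∅ : Finset (Sym2 V)))
  cases n with
  | zero => exact h
  | succ n =>
    unfold run
    rw [if_pos (by rw [h]; rfl)]
    exact h

theorem tr_orAll {V : Type} (g : Fo V → Bool) (l : List (Fo V)) (B : Fo V) :
    tr g (orAll l B) = orF (l.map (tr g)) (tr g B) := by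
  induction l with
  | nil => rfl
  | cons A l ih =>
    show Fm.imp (Fm.neg (tr g A)) (tr g (orAll l B)) = _
    rw [ih]
    rfl

/-- the lower bound with parameters -/
theorem lower {F : Type} [Field F] (h2 : (2 : F) ≠ 0) {m T d k t w q N : ℕ} (hT : 1 ≤ T) (hd : 1 ≤ d) (hk : 1 ≤ k)
    (hw : 1 ≤ w) (hq : 1000 * (k + 3) * (T * (w + 1) ^ 2) ≤ q) (hN : Odd N)
    (hNL : lev w (q * (q - 1) + 1) d ≤ N) (π : List (Fo (Sym2 (Fin N)))) (hπ : IsRef m k (Parity N) π)
    (hline : ∀ A ∈ π, ∀ B ∈ A.subs, B.dep ≤ d ∧ B.outer.ncard ≤ t) (hdeg : ∀ A ∈ π, DegOK F m T A) :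
    2 ^ w < 2 ^ t * {B | ∃ A ∈ π, B ∈ A.subs}.ncard + 2 := by
  by_contra hcon
  push Not at hcon
  obtain ⟨S, hS, hSt, hSc, hSd, hSl⟩ := H93.FG2.sub_list_card π t d hline
  -- numbers
  have hX : 1 ≤ T * (w + 1) ^ 2 := Nat.one_le_iff_ne_zero.2 (by positivity)
  have hX1 : (w + 1) ^ 2 ≤ T * (w + 1) ^ 2 := Nat.le_mul_of_pos_left _ hT
  have hq1 : 4000 * (T * (w + 1) ^ 2) ≤ q := by
    refine le_trans ?_ hq
    nlinarith
  have hq3 : 4000 ≤ q := by omega
  set K := q ^ 2 / 10 with hKdef
  have hK10 : 10 * K ≤ q ^ 2 := Nat.mul_div_le _ _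
  have hK11 : q ^ 2 < 10 * K + 10 := by
    have := Nat.lt_mul_div_succ (q ^ 2) (show 0 < 10 by norm_num)
    omega
  have hq2 : 4000 * q ≤ q ^ 2 := by nlinarith
  obtain ⟨𝓦, hc, hK⟩ := world_exists F h2 q K (by omega) (by omega) (by omega)
  have hcard := card_Pt q
  have hodd : Odd (Fintype.card (Pt q)) := by
    rw [hcard]
    exact (Nat.even_mul_pred_self q).add_one
  have hcard2 : 100 * (w + 1) ^ 2 ≤ Fintype.card (Pt q) := by
    rw [hcard]
    have : q ≤ q * (q - 1) := Nat.le_mul_of_pos_right _ (by omega)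
    omega
  obtain ⟨val, hval, hcoh, hv1, hv2, hv3⟩ := tower hd hw hodd hcard2 hN (by rw [hcard]; exact hNL) S hS hSd
    (hSl.trans hcon)
  set r : (Eq' q → Bool) → Fm (Sym2 (Fin N) ⊕ Bool) → Option Bool :=
    fun y C => run w (val C) (𝓦.M y) (w + 1) ∅ with hr
  have hrc : ∀ y b, r y (.var (Sum.inr b)) = some b := fun y b => run_const w _ _ b (hv1 b) _
  have hg := fun y => guess_exists m (r y) (hrc y)
  choose g hg1 hg2 using hg
  set D0 := (w + 1) * (2 * w) * 𝓦.c with hD0
  set D1 := T * D0 with hD1
  have hD0le : D0 ≤ 2 * (w + 1) ^ 2 * q := by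
    rw [hD0, hc]
    calc (w + 1) * (2 * w) * (q - 1) ≤ (w + 1) * (2 * (w + 1)) * q := by
          apply Nat.mul_le_mul
          · apply Nat.mul_le_mul_left
            omega
          · omega
      _ = 2 * (w + 1) ^ 2 * q := by ring
  have hD1le : D1 ≤ 2 * (T * (w + 1) ^ 2) * q := by
    calc D1 = T * D0 := hD1
      _ ≤ T * (2 * (w + 1) ^ 2 * q) := Nat.mul_le_mul_left _ hD0le
      _ = 2 * (T * (w + 1) ^ 2) * q := by ring
  have hKD : (k + 6) * D1 ≤ K := by
    have h1 : (k + 6) * D1 ≤ (2 * (k + 3)) * (2 * (T * (w + 1) ^ 2) * q) :=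
      Nat.mul_le_mul (by omega) hD1le
    have h3 : 250 * ((2 * (k + 3)) * (2 * (T * (w + 1) ^ 2) * q)) ≤ q ^ 2 := by
      calc 250 * ((2 * (k + 3)) * (2 * (T * (w + 1) ^ 2) * q))
          = (1000 * (k + 3) * (T * (w + 1) ^ 2)) * q := by ring
        _ ≤ q * q := Nat.mul_le_mul_right _ hq
        _ = q ^ 2 := by ring
    omega
  have hKD' : (k + 6) * D1 ≤ 𝓦.K := by rw [hK]; exact hKD
  have hD01 : D0 ≤ D1 := Nat.le_mul_of_pos_left _ hT
  have hcK : 𝓦.c ≤ D0 := by
    rw [hD0]
    exact Nat.le_mul_of_pos_left _ (by positivity)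
  have hstkK : 3 * ((w + 1) * (2 * w) * 𝓦.c) + 𝓦.c ≤ 𝓦.K := by
    rw [← hD0]
    have : 6 * D1 ≤ (k + 6) * D1 := Nat.mul_le_mul_right _ (by omega)
    omega
  have hdl : ∀ A ∈ π, ∀ B ∈ A.subs,
      ind (fun y => g y B = true) ∈ 𝓦.Deg D1 ∧ ind (fun y => r y (tr (g y) B) = none) ∈ 𝓦.Deg D1 ∧
      ind (fun y => r y (tr (g y) B) = none) ∈ 𝓦.Z := by
    intro A hA
    refine hdeg A hA _ 𝓦.toAlg r g hg1 hg2 D0 ?_ ?_ ?_
    · intro G B hB b
      exact run_deg 𝓦 w _ (w + 1) ∅ b
    · intro G B hB
      exact run_stk 𝓦 (hval _ (hSt A hA B hB G)) hw hstkK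
    · have : 6 * D1 ≤ (k + 6) * D1 := Nat.mul_le_mul_right _ (by omega)
      omega
  have hE : Ev m k 𝓦.toAlg D1 r g {A | A ∈ π} := by
    refine ⟨?_, hg2, fun A hA B hB => (hdl A hA B hB).1, fun A hA B hB => (hdl A hA B hB).2.1,
      fun A hA B hB => (hdl A hA B hB).2.2, ?_, ?_, ?_, ?_, hKD'⟩
    · intro y a n f
      rw [hg1 y a n f]
      simp
    · intro A hA B hB y a b h1 h3
      have hm := hSt A hA _ hB (g y)
      have hm' : Fm.neg (tr (g y) B) ∈ S := hm
      have hm2 := hS.1 _ hm'
      obtain ⟨M, hM, hv⟩ := common (S := {A | A ∈ S}) hval hcard2 [tr (g y) B, Fm.neg (tr (g y) B)] (by simp)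
        (by
          intro C hC
          simp only [List.mem_cons, List.not_mem_nil, or_false] at hC
          rcases hC with rfl | rfl
          · exact hm2
          · exact hm') (𝓦.isM y) (fun C => (r y C).getD false)
        (by
          intro C hC
          simp only [List.mem_cons, List.not_mem_nil, or_false] at hC
          rcases hC with rfl | rfl
          · show r y _ = some ((r y _).getD false)
            rw [h1]; rfl
          · show r y _ = some ((r y _).getD false)
            have h3' : r y (Fm.neg (tr (g y) B)) = some b := h3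
            rw [h3']; rfl)
      have v1 := hv (tr (g y) B) (by simp)
      have v2 := hv (Fm.neg (tr (g y) B)) (by simp)
      have h3' : r y (Fm.neg (tr (g y) B)) = some b := h3
      rw [h1] at v1
      rw [h3'] at v2
      exact hcoh.neg _ hm' M hM a b v1 v2
    · intro A hA B C hB y a b c h1 h3 h4
      have hm := hSt A hA _ hB (g y)
      have hm' : Fm.imp (tr (g y) B) (tr (g y) C) ∈ S := hm
      have hm2 := hS.2 _ _ hm'
      have h4' : r y (Fm.imp (tr (g y) B) (tr (g y) C)) = some c := h4
      obtain ⟨M, hM, hv⟩ := common (S := {A | A ∈ S}) hval hcard2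
        [tr (g y) B, tr (g y) C, Fm.imp (tr (g y) B) (tr (g y) C)] (by simp)
        (by
          intro X hX
          simp only [List.mem_cons, List.not_mem_nil, or_false] at hX
          rcases hX with rfl | rfl | rfl
          · exact hm2.1
          · exact hm2.2
          · exact hm') (𝓦.isM y) (fun X => (r y X).getD false)
        (by
          intro X hX
          simp only [List.mem_cons, List.not_mem_nil, or_false] at hX
          rcases hX with rfl | rfl | rfl
          · show r y _ = some ((r y _).getD false)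
            rw [h1]; rfl
          · show r y _ = some ((r y _).getD false)
            rw [h3]; rfl
          · show r y _ = some ((r y _).getD false)
            rw [h4']; rfl)
      have v1 := hv (tr (g y) B) (by simp)
      have v2 := hv (tr (g y) C) (by simp)
      have v3 := hv (Fm.imp (tr (g y) B) (tr (g y) C)) (by simp)
      rw [h1] at v1
      rw [h3] at v2
      rw [h4'] at v3
      exact hcoh.imp _ _ hm' M hM a b c v1 v2 v3
    · intro a b c hbc hL y h1 h3
      have hm := hSt _ hL _ (self_mem_subs _) (g y)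
      have hm' : Fm.imp (.var (Sum.inl s(a, b))) (Fm.neg (.var (Sum.inl s(a, c)))) ∈ S := hm
      have m1 := hS.2 _ _ hm'
      have m2 := hS.1 _ m1.2
      obtain ⟨M, hM, hv⟩ := common (S := {A | A ∈ S}) hval hcard2
        [.var (Sum.inl s(a, b)), .var (Sum.inl s(a, c))] (by simp)
        (by
          intro X hX
          simp only [List.mem_cons, List.not_mem_nil, or_false] at hX
          rcases hX with rfl | rfl
          · exact m1.1
          · exact m2) (𝓦.isM y) (fun X => true)
        (by
          intro X hX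
          simp only [List.mem_cons, List.not_mem_nil, or_false] at hX
          rcases hX with rfl | rfl
          · exact h1
          · exact h3)
      exact hv2 a b c hbc M hM ⟨hv _ (by simp), hv _ (by simp)⟩
    · intro a l B hL hall y hf
      have hm := hSt _ hL _ (self_mem_subs _) (g y)
      obtain ⟨M, hM, hv⟩ := common (S := {A | A ∈ S}) hval hcard2
        [tr (g y) (orAll l B)] (by simp)
        (by
          intro X hX
          rw [List.mem_singleton] at hX
          rw [hX]
          exact hm) (𝓦.isM y) (fun X => false)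
        (by
          intro X hX
          rw [List.mem_singleton] at hX
          rw [hX]
          exact hf)
      have v1 := hv _ (List.mem_singleton.2 rfl)
      rw [tr_orAll] at v1 hm
      refine hv3 a _ _ hm ?_ M hM v1
      intro b hb
      have := hall b hb
      rcases List.mem_cons.1 this with h | h
      · rw [← h]
        exact List.mem_cons_self
      · exact List.mem_cons_of_mem _ (List.mem_map.2 ⟨_, h, rfl⟩)
  exact hE.no_ref π hπ fun A hA => hA

end Pool.Agent.H67.FG
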