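import Pool.Agent.H3.MPG.Tow

/-!
# FG, module TOW: one restriction for all formulas of a list (the tower of `ac_step`)
-/

set_option autoImplicit false

namespace Pool.Agent.H67.FG

open Finset Pool.Agent.H3.Ac Pool.Agent.H3.Frg

/-- values for all formulas of a list on a given point set `V'` -/
theorem tower {d w : ℕ} (hd : 1 ≤ d) (hw : 1 ≤ w) {V' : Type} [Fintype V'] [DecidableEq V']
    (hL : Odd (Fintype.card V')) (hLw : 100 * (w + 1) ^ 2 ≤ Fintype.card V') {N : ℕ} (hN : Odd N)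
    (hNL : lev w (Fintype.card V') d ≤ N) (S : List (Fm (Sym2 (Fin N) ⊕ Bool))) (hS : SubCl {A | A ∈ S})
    (hdep : ∀ A ∈ S, ldep 0 A ≤ d) (hlen : S.length ≤ 2 ^ w) :
    ∃ val : Fm (Sym2 (Fin N) ⊕ Bool) → Finset (Sym2 V') → Option Bool,
      (∀ A ∈ S, Val w (8 * w) (val A)) ∧ Coh val {A | A ∈ S} ∧
      (∀ b M, val (.var (Sum.inr b)) M = some b) ∧
      (∀ a b c : Fin N, b ≠ c → ∀ M, IsM M → ¬ (val (.var (Sum.inl s(a, b))) M = some true ∧
        val (.var (Sum.inl s(a, c))) M = some true)) ∧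
      ∀ (a : Fin N) (l : List (Fm (Sym2 (Fin N) ⊕ Bool))) (B : Fm (Sym2 (Fin N) ⊕ Bool)), orF l B ∈ S →
        (∀ b, b ≠ a → .var (Sum.inl s(a, b)) ∈ B :: l) → ∀ M, IsM M → val (orF l B) M ≠ some false :=
  Pool.Agent.H3.MPG.tower hd hw hL hLw hN hNL S hS hdep hlen

end Pool.Agent.H67.FG
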