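import Pool.Agent.H67.FG.Com
import Pool.Agent.H67.FG.Gue
import Pool.Agent.H67.FG.Tow
import Pool.Agent.H67.FG.Mat

/-!
# FG, module SND: soundness (abstract part)
-/

set_option autoImplicit false

namespace Pool.Agent.H67.FG

open Finset Pool.Agent.H3.Ac Pool.Agent.H3.Frg

section Abs

variable {k Y : Type} [Field k]

/-- a function of low degree which vanishes outside finitely many stuck sets is in `Z` -/
theorem zl (𝓐 : Alg k Y) (D1 : ℕ) (l : List (Y → Prop)) : ∀ (D : ℕ), (∀ P ∈ l, ind P ∈ 𝓐.Deg D1) →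
    (∀ P ∈ l, ind P ∈ 𝓐.Z) → ∀ h : Y → k, h ∈ 𝓐.Deg D → D + l.length * D1 ≤ 𝓐.K →
    (∀ y, h y ≠ 0 → ∃ P ∈ l, P y) → h ∈ 𝓐.Z := by
  induction l with
  | nil =>
    intro D _ _ h _ _ hne
    have h0 : h = 0 := by
      funext y
      by_contra hy
      obtain ⟨P, hP, _⟩ := hne y hy
      simp at hP
    rw [h0]
    exact 𝓐.Z.zero_mem
  | cons P l ih =>
    intro D hd hz h hh hK hne
    have hlen : (P :: l).length = l.length + 1 := rfl
    rw [hlen] at hK
    have hK2 : D + D1 + l.length * D1 ≤ 𝓐.K := by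
      have : (l.length + 1) * D1 = l.length * D1 + D1 := by ring
      omega
    have h1 : h * ind P ∈ 𝓐.Z := 𝓐.zmul (by omega) hh (hd P (by simp)) (hz P (by simp))
    have h2 : h * (1 - ind P) ∈ 𝓐.Z := by
      refine ih (D + D1) (fun Q hQ => hd Q (List.mem_cons_of_mem _ hQ))
        (fun Q hQ => hz Q (List.mem_cons_of_mem _ hQ)) _
        (𝓐.mul hh (𝓐.Deg D1 |>.sub_mem (𝓐.one D1) (hd P (by simp)))) hK2 ?_
      intro y hy
      have hy1 : h y ≠ 0 := by
        intro h0
        apply hy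
        simp [h0]
      have hy2 : ¬ P y := by
        intro hp
        apply hy
        simp [ind, hp]
      obtain ⟨Q, hQ, hQy⟩ := hne y hy1
      rcases List.mem_cons.1 hQ with rfl | hQ
      · exact absurd hQy hy2
      · exact ⟨Q, hQ, hQy⟩
    have h3 : h = h * ind P + h * (1 - ind P) := by ring
    rw [h3]
    exact 𝓐.Z.add_mem h1 h2

end Abs

end Pool.Agent.H67.FG
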