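import Pool.Agent.H67.FG.SndA

/-!
# FG, module SND: soundness of the lines (for given values)
-/

set_option autoImplicit false

namespace Pool.Agent.H67.FG

open Finset Pool.Agent.H3.Ac Pool.Agent.H3.Frg

/-- the data of the evaluation: run values `r`, values `g`, degree `D1` -/
structure Ev (p k : ℕ) {N : ℕ} {Y F : Type} [Field F] (𝓐 : Alg F Y) (D1 : ℕ)
    (r : Y → Fm (Sym2 (Fin N) ⊕ Bool) → Option Bool) (g : Y → Fo (Sym2 (Fin N)) → Bool)
    (L : Set (Fo (Sym2 (Fin N)))) : Prop where
  resp : ∀ y, Resp p (g y)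
  val : ∀ y A, g y A = (r y (tr (g y) A)).getD false
  deg : ∀ A ∈ L, ∀ B ∈ A.subs, ind (fun y => g y B = true) ∈ 𝓐.Deg D1
  sdeg : ∀ A ∈ L, ∀ B ∈ A.subs, ind (fun y => r y (tr (g y) B) = none) ∈ 𝓐.Deg D1
  sz : ∀ A ∈ L, ∀ B ∈ A.subs, ind (fun y => r y (tr (g y) B) = none) ∈ 𝓐.Z
  neg : ∀ A ∈ L, ∀ B, Fo.neg B ∈ A.subs → ∀ y a b, r y (tr (g y) B) = some a →
    r y (tr (g y) (.neg B)) = some b → b = !a
  imp : ∀ A ∈ L, ∀ B C, Fo.imp B C ∈ A.subs → ∀ y a b c, r y (tr (g y) B) = some a →
    r y (tr (g y) C) = some b → r y (tr (g y) (.imp B C)) = some c → c = (!a || b)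
  two : ∀ a b c : Fin N, b ≠ c → Fo.imp (.var s(a, b)) (.neg (.var s(a, c))) ∈ L → ∀ y,
    r y (.var (Sum.inl s(a, b))) = some true → r y (.var (Sum.inl s(a, c))) = some true → False
  all : ∀ (a : Fin N) (l : List (Fo (Sym2 (Fin N)))) (B : Fo (Sym2 (Fin N))), orAll l B ∈ L →
    (∀ b, b ≠ a → .var s(a, b) ∈ B :: l) → ∀ y, r y (tr (g y) (orAll l B)) ≠ some false
  K : (k + 6) * D1 ≤ 𝓐.K

section

variable {p k N : ℕ} {Y F : Type} [Field F] {𝓐 : Alg F Y} {D1 : ℕ}
    {r : Y → Fm (Sym2 (Fin N) ⊕ Bool) → Option Bool} {g : Y → Fo (Sym2 (Fin N)) → Bool}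
    {L : Set (Fo (Sym2 (Fin N)))}

theorem Ev.some (E : Ev p k 𝓐 D1 r g L) {y : Y} {A : Fo (Sym2 (Fin N))}
    (h : r y (tr (g y) A) ≠ none) : r y (tr (g y) A) = some (g y A) := by
  obtain ⟨b, hb⟩ := Option.ne_none_iff_exists'.1 h
  rw [hb, E.val y A, hb]
  rfl

theorem Ev.gneg (E : Ev p k 𝓐 D1 r g L) {A : Fo (Sym2 (Fin N))} (hA : A ∈ L) {B : Fo (Sym2 (Fin N))}
    (hB : Fo.neg B ∈ A.subs) {y : Y} (h1 : r y (tr (g y) B) ≠ none) (h2 : r y (tr (g y) (.neg B)) ≠ none) :
    g y (.neg B) = !(g y B) :=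
  E.neg A hA B hB y _ _ (E.some h1) (E.some h2)

theorem Ev.gimp (E : Ev p k 𝓐 D1 r g L) {A : Fo (Sym2 (Fin N))} (hA : A ∈ L) {B C : Fo (Sym2 (Fin N))}
    (hB : Fo.imp B C ∈ A.subs) {y : Y} (h1 : r y (tr (g y) B) ≠ none) (h2 : r y (tr (g y) C) ≠ none)
    (h3 : r y (tr (g y) (.imp B C)) ≠ none) : g y (.imp B C) = (!(g y B) || g y C) :=
  E.imp A hA B C hB y _ _ _ (E.some h1) (E.some h2) (E.some h3)

/-- the sets where formulas are undecided -/
def stuckL (r : Y → Fm (Sym2 (Fin N) ⊕ Bool) → Option Bool) (g : Y → Fo (Sym2 (Fin N)) → Bool)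
    (l : List (Fo (Sym2 (Fin N)))) : List (Y → Prop) :=
  l.map fun B y => r y (tr (g y) B) = none

/-- a function of low degree which vanishes where finitely many subformulas of a line are decided is in `Z` -/
theorem Ev.zl (E : Ev p k 𝓐 D1 r g L) {A : Fo (Sym2 (Fin N))} (hA : A ∈ L) (l : List (Fo (Sym2 (Fin N))))
    (hl : ∀ B ∈ l, B ∈ A.subs) (D : ℕ) (h : Y → F) (hh : h ∈ 𝓐.Deg D) (hK : D + l.length * D1 ≤ 𝓐.K)
    (hne : ∀ y, (∀ B ∈ l, r y (tr (g y) B) ≠ none) → h y = 0) : h ∈ 𝓐.Z := by
  refine FG.zl 𝓐 D1 (stuckL r g l) D ?_ ?_ h hh (by simpa [stuckL] using hK) ?_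
  · intro P hP
    obtain ⟨B, hB, rfl⟩ := List.mem_map.1 hP
    exact E.sdeg A hA B (hl B hB)
  · intro P hP
    obtain ⟨B, hB, rfl⟩ := List.mem_map.1 hP
    exact E.sz A hA B (hl B hB)
  · intro y hy
    by_contra hcon
    apply hy
    apply hne
    intro B hB hn
    exact hcon ⟨_, List.mem_map.2 ⟨B, hB, rfl⟩, hn⟩

theorem fm_subs_length (ψ : Fm ℕ) : ψ.subs.length = ψ.len := by
  induction ψ with
  | var i => rfl
  | neg A ih => simp [Fm.subs, Fm.len, ih]
  | imp A B ihA ihB => simp [Fm.subs, Fm.len, ihA, ihB]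

theorem mem_subs_inst (A : Fo (Sym2 (Fin N))) (σ : ℕ → Fo (Sym2 (Fin N))) (ψ : Fm ℕ) (h : inst σ ψ ∈ A.subs)
    : ∀ χ ∈ ψ.subs, inst σ χ ∈ A.subs := by
  induction ψ with
  | var i =>
    intro χ hχ
    simp only [Fm.subs, List.mem_singleton] at hχ
    rw [hχ]
    exact h
  | neg B ih =>
    intro χ hχ
    simp only [Fm.subs, List.mem_cons] at hχ
    rcases hχ with rfl | hχ
    · exact h
    · refine ih (subs_trans ?_ h) χ hχ
      show inst σ B ∈ (Fo.neg (inst σ B)).subs
      rw [Fo.subs]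
      exact List.mem_cons_of_mem _ (self_mem_subs _)
  | imp B C ihB ihC =>
    intro χ hχ
    simp only [Fm.subs, List.mem_cons, List.mem_append] at hχ
    rcases hχ with rfl | hχ | hχ
    · exact h
    · refine ihB (subs_trans ?_ h) χ hχ
      show inst σ B ∈ (Fo.imp (inst σ B) (inst σ C)).subs
      rw [Fo.subs]
      exact List.mem_cons_of_mem _ (List.mem_append_left _ (self_mem_subs _))
    · refine ihC (subs_trans ?_ h) χ hχ
      show inst σ C ∈ (Fo.imp (inst σ B) (inst σ C)).subs
      rw [Fo.subs]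
      exact List.mem_cons_of_mem _ (List.mem_append_right _ (self_mem_subs _))

theorem Ev.geval (E : Ev p k 𝓐 D1 r g L) {A : Fo (Sym2 (Fin N))} (hA : A ∈ L) (σ : ℕ → Fo (Sym2 (Fin N)))
    (y : Y) (ψ : Fm ℕ) (h : inst σ ψ ∈ A.subs)
    (hs : ∀ χ ∈ ψ.subs, r y (tr (g y) (inst σ χ)) ≠ none) :
    g y (inst σ ψ) = ψ.eval (fun n => g y (σ n)) := by
  induction ψ with
  | var i => rfl
  | neg B ih =>
    have hself : Fm.neg B ∈ (Fm.neg B).subs := by simp [Fm.subs]
    have hBs : ∀ χ ∈ B.subs, χ ∈ (Fm.neg B).subs := fun χ hχ => by simp [Fm.subs, hχ]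
    have hBself : B ∈ B.subs := by cases B <;> simp [Fm.subs]
    have hB := mem_subs_inst A σ _ h B (hBs B hBself)
    have h1 := ih hB fun χ hχ => hs χ (hBs χ hχ)
    have h2 := E.gneg hA (B := inst σ B) h (y := y) (hs B (hBs B hBself)) (hs _ hself)
    show g y (.neg (inst σ B)) = _
    rw [h2, h1]
    rfl
  | imp B C ihB ihC =>
    have hself : Fm.imp B C ∈ (Fm.imp B C).subs := by simp [Fm.subs]
    have hBs : ∀ χ ∈ B.subs, χ ∈ (Fm.imp B C).subs := fun χ hχ => by simp [Fm.subs, hχ]
    have hCs : ∀ χ ∈ C.subs, χ ∈ (Fm.imp B C).subs := fun χ hχ => by simp [Fm.subs, hχ]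
    have hBself : B ∈ B.subs := by cases B <;> simp [Fm.subs]
    have hCself : C ∈ C.subs := by cases C <;> simp [Fm.subs]
    have hB := mem_subs_inst A σ _ h B (hBs B hBself)
    have hC := mem_subs_inst A σ _ h C (hCs C hCself)
    have h1 := ihB hB fun χ hχ => hs χ (hBs χ hχ)
    have h2 := ihC hC fun χ hχ => hs χ (hCs χ hχ)
    have h3 := E.gimp hA (B := inst σ B) (C := inst σ C) h (y := y) (hs B (hBs B hBself))
      (hs C (hCs C hCself)) (hs _ hself)
    show g y (.imp (inst σ B) (inst σ C)) = _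
    rw [h3, h1, h2]
    rfl

/-- truth defect of a formula -/
noncomputable def df (g : Y → Fo (Sym2 (Fin N)) → Bool) (A : Fo (Sym2 (Fin N))) : Y → F :=
  1 - ind (fun y => g y A = true)

theorem df_apply (g : Y → Fo (Sym2 (Fin N)) → Bool) (A : Fo (Sym2 (Fin N))) (y : Y) (h : g y A = true) :
    (df g A : Y → F) y = 0 := by
  simp [df, ind, h]

theorem Ev.df_deg (E : Ev p k 𝓐 D1 r g L) {A B : Fo (Sym2 (Fin N))} (hA : A ∈ L) (hB : B ∈ A.subs) :
    df g B ∈ 𝓐.Deg D1 :=
  (𝓐.Deg D1).sub_mem (𝓐.one D1) (E.deg A hA B hB)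

/-- all lines have their defect in `Z` -/
theorem Ev.lines (E : Ev p k 𝓐 D1 r g L) (π : List (Fo (Sym2 (Fin N)))) (hπ : IsRef p k (Parity N) π)
    (hL : ∀ A ∈ π, A ∈ L) : ∀ (i : ℕ) (hi : i < π.length), df g (π[i]) ∈ 𝓐.Z := by
  intro i
  induction i using Nat.strong_induction_on with
  | _ i ih =>
    intro hi
    have hAL : π[i] ∈ L := hL _ (List.getElem_mem hi)
    have hself : π[i] ∈ (π[i]).subs := self_mem_subs _
    have hD := E.df_deg hAL hself
    have hK := E.K
    rcases hπ.line i hi with h | ⟨ψ, σ, h1, h2, h3⟩ | ⟨j, l, hj, hl, h⟩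
    · rcases h with ⟨a, b, c, hbc, h⟩ | ⟨a, l, B, h, hall⟩
      · rw [h] at hAL hself hD ⊢
        refine E.zl hAL [.imp (.var s(a, b)) (.neg (.var s(a, c))), .var s(a, b), .neg (.var s(a, c)),
          .var s(a, c)] ?_ D1 _ hD ?_ ?_
        · intro B hB
          simp only [Fo.subs, List.mem_cons, List.not_mem_nil, or_false, List.mem_append] at hB ⊢
          tauto
        · have : ([Fo.imp (.var s(a, b)) (.neg (.var s(a, c))), .var s(a, b), .neg (.var s(a, c)),
            .var s(a, c)] : List (Fo (Sym2 (Fin N)))).length = 4 := rfl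
          rw [this]
          nlinarith
        · intro y hy
          have e1 := hy (.imp (.var s(a, b)) (.neg (.var s(a, c)))) (by simp)
          have e2 := hy (.var s(a, b)) (by simp)
          have e3 := hy (.neg (.var s(a, c))) (by simp)
          have e4 := hy (.var s(a, c)) (by simp)
          apply df_apply
          have f1 := E.gimp hAL hself e2 e3 e1
          have f2 := E.gneg hAL (B := .var s(a, c)) (by simp [Fo.subs]) e4 e3
          rw [f1, f2]
          by_contra hcon
          have hb : g y (.var s(a, b)) = true ∧ g y (.var s(a, c)) = true := by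
            revert hcon
            cases g y (.var s(a, b)) <;> cases g y (.var s(a, c)) <;> simp
          have s1 := E.some e2
          have s2 := E.some e4
          rw [hb.1] at s1
          rw [hb.2] at s2
          exact E.two a b c hbc hAL y s1 s2
      · rw [h] at hAL hself hD ⊢
        refine E.zl hAL [orAll l B] ?_ D1 _ hD ?_ ?_
        · intro C hC
          rw [List.mem_singleton] at hC
          rw [hC]
          exact hself
        · have : ([orAll l B] : List (Fo (Sym2 (Fin N)))).length = 1 := rfl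
          rw [this]
          nlinarith
        · intro y hy
          have e1 := hy (orAll l B) (by simp)
          have s1 := E.some e1
          have s2 := E.all a l B hAL hall y
          apply df_apply
          by_contra hcon
          rw [Bool.not_eq_true] at hcon
          rw [hcon] at s1
          exact s2 s1
    · rw [h3] at hAL hself hD ⊢
      refine E.zl hAL (ψ.subs.map (inst σ)) ?_ D1 _ hD ?_ ?_
      · intro B hB
        obtain ⟨χ, hχ, rfl⟩ := List.mem_map.1 hB
        exact mem_subs_inst _ σ ψ hself χ hχ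
      · rw [List.length_map, fm_subs_length]
        have : ψ.len * D1 ≤ k * D1 := Nat.mul_le_mul_right _ h1
        nlinarith
      · intro y hy
        apply df_apply
        rw [E.geval hAL σ y ψ hself fun χ hχ => hy _ (List.mem_map.2 ⟨χ, hχ, rfl⟩)]
        exact h2 (g y) (E.resp y)
    · have hjZ := ih j hj (hj.trans hi)
      have hlZ := ih l hl (hl.trans hi)
      have hlL : π[l] ∈ L := hL _ (List.getElem_mem (hl.trans hi))
      have hjL : π[j] ∈ L := hL _ (List.getElem_mem (hj.trans hi))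
      have hjD := E.df_deg hjL (self_mem_subs _)
      have hlD := E.df_deg hlL (self_mem_subs _)
      rw [h] at hlZ hlL hlD
      have hjT := E.deg _ hjL _ (self_mem_subs π[j])
      have hlT := E.deg _ hlL _ (self_mem_subs _)
      have hcj : π[j] ∈ (Fo.imp π[j] π[i]).subs := by
        rw [Fo.subs]
        exact List.mem_cons_of_mem _ (List.mem_append_left _ (self_mem_subs _))
      have hci : π[i] ∈ (Fo.imp π[j] π[i]).subs := by
        rw [Fo.subs]
        exact List.mem_cons_of_mem _ (List.mem_append_right _ (self_mem_subs _))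
      have a1 : df g π[i] * df g π[j] ∈ 𝓐.Z := 𝓐.zmul (by nlinarith) hD hjD hjZ
      have a2 : (df g π[i] * ind (fun y => g y π[j] = true)) * df g (Fo.imp π[j] π[i]) ∈ 𝓐.Z :=
        𝓐.zmul (by nlinarith) (𝓐.mul hD hjT) hlD hlZ
      have a3 : (df g π[i] * ind (fun y => g y π[j] = true)) *
          ind (fun y => g y (Fo.imp π[j] π[i]) = true) ∈ 𝓐.Z := by
        refine E.zl hlL [.imp π[j] π[i], π[j], π[i]] ?_ (D1 + D1 + D1) _ (𝓐.mul (𝓐.mul hD hjT) hlT) ?_ ?_
        · intro B hB
          simp only [List.mem_cons, List.not_mem_nil, or_false] at hB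
          rcases hB with rfl | rfl | rfl
          · exact self_mem_subs _
          · exact hcj
          · exact hci
        · have : ([Fo.imp π[j] π[i], π[j], π[i]] : List (Fo (Sym2 (Fin N)))).length = 3 := rfl
          rw [this]
          nlinarith
        · intro y hy
          have e1 := hy (.imp π[j] π[i]) (by simp)
          have e2 := hy π[j] (by simp)
          have e3 := hy π[i] (by simp)
          have f1 := E.gimp hlL (self_mem_subs _) e2 e3 e1
          by_cases hi' : g y π[i] = true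
          · show (df g π[i] : Y → F) y * _ * _ = 0
            rw [df_apply g _ y hi', zero_mul, zero_mul]
          · rw [Bool.not_eq_true] at hi'
            by_cases hj' : g y π[j] = true
            · have : ¬ g y (Fo.imp π[j] π[i]) = true := by
                rw [f1, hi', hj']
                simp
              simp [ind, this]
            · simp [ind, hj']
      have e : (df g π[i] : Y → F) = df g π[i] * df g π[j] +
          ((df g π[i] * ind (fun y => g y π[j] = true)) * df g (Fo.imp π[j] π[i]) +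
          (df g π[i] * ind (fun y => g y π[j] = true)) *
          ind (fun y => g y (Fo.imp π[j] π[i]) = true)) := by
        simp only [df]
        ring
      rw [e]
      exact 𝓐.Z.add_mem a1 (𝓐.Z.add_mem a2 a3)

/-- there is no refutation -/
theorem Ev.no_ref (E : Ev p k 𝓐 D1 r g L) (π : List (Fo (Sym2 (Fin N)))) (hπ : IsRef p k (Parity N) π)
    (hL : ∀ A ∈ π, A ∈ L) : False := by
  obtain ⟨hne, A, hA⟩ := hπ.last
  have hlen : π.length - 1 < π.length := by
    have := List.length_pos_iff.2 hne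
    omega
  have h1 := E.lines π hπ hL _ hlen
  have h2 : π[π.length - 1] = .neg (.imp A A) := by
    rw [← hA, List.getLast_eq_getElem]
  rw [h2] at h1
  have hAL : Fo.neg (.imp A A) ∈ L := by
    rw [← hA]
    exact hL _ (List.getLast_mem hne)
  have hK := E.K
  have hT := E.deg _ hAL _ (self_mem_subs _)
  have h3 : ind (fun y => g y (.neg (.imp A A)) = true) ∈ 𝓐.Z := by
    refine E.zl hAL [.neg (.imp A A), .imp A A, A] ?_ D1 _ hT ?_ ?_
    · intro B hB
      simp only [List.mem_cons, List.not_mem_nil, or_false] at hB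
      rcases hB with rfl | rfl | rfl
      · exact self_mem_subs _
      · simp [Fo.subs]
      · rw [Fo.subs, Fo.subs]
        exact List.mem_cons_of_mem _ (List.mem_cons_of_mem _ (List.mem_append_left _ (self_mem_subs _)))
    · have : ([Fo.neg (.imp A A), .imp A A, A] : List (Fo (Sym2 (Fin N)))).length = 3 := rfl
      rw [this]
      nlinarith
    · intro y hy
      have e1 := hy (.neg (.imp A A)) (by simp)
      have e2 := hy (.imp A A) (by simp)
      have e3 := hy A (by simp)
      have f1 := E.gneg hAL (B := .imp A A) (self_mem_subs _) e2 e1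
      have f2 := E.gimp hAL (B := A) (C := A) (by simp [Fo.subs]) e3 e3 e2
      have : ¬ g y (.neg (.imp A A)) = true := by
        rw [f1, f2]
        cases g y A <;> simp
      simp [ind, this]
  have h4 : (1 : Y → F) = df g (.neg (.imp A A)) + ind (fun y => g y (.neg (.imp A A)) = true) := by
    simp [df]
  exact 𝓐.ne (h4 ▸ 𝓐.Z.add_mem h1 h3)

end

end Pool.Agent.H67.FG
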